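import Pool.Agent.MP_5c28a4_al.H52S.N0a

/-!
The group ring of a power is Noetherian under the diagonal action of the elements of augmentation
one: polarisation, contraction of one slot, and Brauer maps.
-/

set_option autoImplicit false

namespace Pool.Agent.MP_5c28a4_al.H89S

namespace N0A

open Finset MonoidAlgebra

variable {Γ : Type} [Group Γ] {m : ℕ}

/-- augmentation -/
noncomputable def eps : QQ Γ →+ ℤ where
  toFun s := s.coeff.sum fun _ a => a
  map_zero' := by simp
  map_add' x y := by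
    rw [coeff_add]
    exact Finsupp.sum_add_index' (fun _ => rfl) (fun _ _ _ => rfl)

theorem eps_single (g : Γ) (a : ℤ) : eps (single g a) = a := by
  change (single g a : QQ Γ).coeff.sum (fun _ a => a) = a
  simp

theorem eps_one : eps (1 : QQ Γ) = 1 := eps_single 1 1

/-- the tensor product of elements of the group ring -/
noncomputable def FT (m : ℕ) : MultilinearMap ℤ (fun _ : Fin m => QQ Γ) (QQ (Fin m → Γ)) :=
  (MultilinearMap.mkPiAlgebraFin ℤ m (QQ (Fin m → Γ))).compLinearMap fun l =>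
    (mapDomainRingHom ℤ
      (MonoidHom.mulSingle (fun _ : Fin m => Γ) l)).toAddMonoidHom.toIntLinearMap

theorem nrm_eq (x : QQ Γ) : nrm m x = FT m fun _ => x := rfl

theorem FT_single (g : Fin m → Γ) (a : Fin m → ℤ) :
    FT m (fun l => single (g l) (a l)) = single g (∏ l, a l) := by
  have h1 : FT m (fun l => single (g l) (a l)) = (List.map (singleHom (R := ℤ) (M := Fin m → Γ))
      (List.ofFn fun l => (a l, Pi.mulSingle l (g l)))).prod := by
    rw [List.map_ofFn]
    simp [FT, Function.comp_def, singleHom]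
  rw [h1, ← map_list_prod]
  have h2 : (List.ofFn fun l => (a l, (Pi.mulSingle l (g l) : Fin m → Γ))).prod =
      (∏ l, a l, g) := by
    refine Prod.ext ?_ ?_
    · have := map_list_prod (MonoidHom.fst ℤ (Fin m → Γ))
        (List.ofFn fun l => (a l, (Pi.mulSingle l (g l) : Fin m → Γ)))
      rw [List.map_ofFn, List.prod_ofFn] at this
      exact this
    · funext k
      have := map_list_prod ((Pi.evalMonoidHom (fun _ : Fin m => Γ) k).comp
        (MonoidHom.snd ℤ (Fin m → Γ)))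
        (List.ofFn fun l => (a l, (Pi.mulSingle l (g l) : Fin m → Γ)))
      refine this.trans ?_
      rw [List.map_ofFn, List.ofFn_eq_map,
        List.prod_map_eq_pow_single k _ (fun l hl _ => by simp [hl.symm]),
        List.count_eq_one_of_mem (List.nodup_finRange m) (List.mem_finRange k)]
      simp
  rw [h2]
  rfl

theorem FT_expand (x : Fin m → QQ Γ) [DecidableEq Γ] :
    FT m x = ∑ r ∈ Fintype.piFinset (fun l => (x l).coeff.support),
      single r (∏ l, (x l).coeff (r l)) := by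
  have h1 : x = fun l => ∑ h ∈ (x l).coeff.support, single h ((x l).coeff h) :=
    funext fun l => (sum_coeff_single (x l)).symm
  conv_lhs => rw [h1]
  rw [MultilinearMap.map_sum_finset]
  exact sum_congr rfl fun r _ => FT_single _ _

theorem FT_coeff (x : Fin m → QQ Γ) (g : Fin m → Γ) :
    (FT m x).coeff g = ∏ l, (x l).coeff (g l) := by
  classical
  rw [FT_expand, coeff_sum, Finsupp.finsetSum_apply]
  simp only [coeff_single, Finsupp.single_apply]
  rw [sum_ite_eq']
  split_ifs with h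
  · rfl
  · rw [Fintype.mem_piFinset, not_forall] at h
    obtain ⟨l, hl⟩ := h
    exact (prod_eq_zero (f := fun l => (x l).coeff (g l)) (mem_univ l)
      (Finsupp.notMem_support_iff.1 hl)).symm

/-- composition with a map of the index sets -/
def cp {κ κ' : Type} (π : κ' → κ) : (κ → Γ) →* (κ' → Γ) where
  toFun g := g ∘ π
  map_one' := rfl
  map_mul' _ _ := rfl

/-- permutation of the slots -/
noncomputable def PP (σ : Equiv.Perm (Fin m)) : QQ (Fin m → Γ) →+* QQ (Fin m → Γ) :=
  mapDomainRingHom ℤ (cp σ.symm)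

theorem PP_coeff (σ : Equiv.Perm (Fin m)) (x : QQ (Fin m → Γ)) (g : Fin m → Γ) :
    (PP σ x).coeff g = x.coeff (g ∘ σ) := by
  have h1 : Function.Injective (cp (Γ := Γ) σ.symm) := fun a b h =>
    σ.symm.surjective.injective_comp_right h
  have h2 := Finsupp.mapDomain_apply h1 x.coeff (g ∘ σ)
  have h3 : cp (Γ := Γ) σ.symm (g ∘ σ) = g := by funext l; simp [cp]
  rw [h3] at h2
  exact h2

/-- the symmetric elements -/
def BB (Γ : Type) [Group Γ] (m : ℕ) : AddSubgroup (QQ (Fin m → Γ)) where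
  carrier := {b | ∀ σ : Equiv.Perm (Fin m), ∀ g : Fin m → Γ, b.coeff (g ∘ σ) = b.coeff g}
  zero_mem' := fun _ _ => rfl
  add_mem' := fun {a b} ha hb σ g => by simp [ha σ g, hb σ g]
  neg_mem' := fun {a} ha σ g => by simp [ha σ g]

theorem mem_BB {b : QQ (Fin m → Γ)} : b ∈ BB Γ m ↔ ∀ σ, PP σ b = b :=
  ⟨fun h σ => by ext g; rw [PP_coeff, h σ g], fun h σ g => by rw [← PP_coeff, h σ]⟩

theorem BB_mul {b b' : QQ (Fin m → Γ)} (h : b ∈ BB Γ m) (h' : b' ∈ BB Γ m) : b * b' ∈ BB Γ m :=
  mem_BB.2 fun σ => by rw [map_mul, mem_BB.1 h, mem_BB.1 h']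

theorem BB_one : (1 : QQ (Fin m → Γ)) ∈ BB Γ m := mem_BB.2 fun σ => map_one _

theorem nrm_mem (s : QQ Γ) : nrm m s ∈ BB Γ m := fun σ g => by
  rw [nrm_eq, FT_coeff, FT_coeff]
  exact Equiv.prod_comp σ fun l => s.coeff (g l)

/-- the norm map -/
noncomputable def NN (Γ : Type) [Group Γ] (m : ℕ) : QQ (Fin m → Γ) →+ QQ (Fin m → Γ) :=
  ∑ σ : Equiv.Perm (Fin m), (PP σ).toAddMonoidHom

theorem NN_apply (x : QQ (Fin m → Γ)) : NN Γ m x = ∑ σ, PP σ x := by
  simp [NN, AddMonoidHom.finsetSum_apply]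

theorem NN_coeff (x : QQ (Fin m → Γ)) (g : Fin m → Γ) :
    (NN Γ m x).coeff g = ∑ σ : Equiv.Perm (Fin m), x.coeff (g ∘ σ) := by
  rw [NN_apply, coeff_sum, Finsupp.finsetSum_apply]
  exact sum_congr rfl fun σ _ => PP_coeff σ x g

theorem NN_mem (x : QQ (Fin m → Γ)) : NN Γ m x ∈ BB Γ m := fun τ g => by
  rw [NN_coeff, NN_coeff]
  exact Equiv.sum_comp (Equiv.mulLeft τ) fun σ : Equiv.Perm (Fin m) => x.coeff (g ∘ σ)

theorem NN_mul (x : QQ (Fin m → Γ)) {b : QQ (Fin m → Γ)} (h : b ∈ BB Γ m) :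
    NN Γ m (x * b) = NN Γ m x * b := by
  simp only [NN_apply, map_mul, mem_BB.1 h, sum_mul]

theorem mul_NN (x : QQ (Fin m → Γ)) {b : QQ (Fin m → Γ)} (h : b ∈ BB Γ m) :
    NN Γ m (b * x) = b * NN Γ m x := by
  simp only [NN_apply, map_mul, mem_BB.1 h, mul_sum]

theorem NN_BB {b : QQ (Fin m → Γ)} (h : b ∈ BB Γ m) : NN Γ m b = m.factorial • b := by
  simp [NN_apply, mem_BB.1 h, Fintype.card_perm]

theorem NN_FT (u : Fin m → QQ Γ) :
    NN Γ m (FT m u) = ∑ σ : Equiv.Perm (Fin m), FT m fun l => u (σ l) := by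
  rw [NN_apply, ← Equiv.sum_comp (Equiv.inv _)]
  refine sum_congr rfl fun σ _ => ?_
  ext g
  rw [PP_coeff, FT_coeff, FT_coeff, ← Equiv.prod_comp σ]
  simp

/-- the operators -/
noncomputable def op (Γ : Type) [Group Γ] (m : ℕ) (s : {s : QQ Γ // eps s = 1}) :
    QQ (Fin m → Γ) →+ QQ (Fin m → Γ) := AddMonoidHom.mulRight (nrm m s.1)

theorem op_apply (s : {s : QQ Γ // eps s = 1}) (x : QQ (Fin m → Γ)) :
    op Γ m s x = x * nrm m s.1 := rfl

theorem iv_BB : Iv (op Γ m) (BB Γ m) := fun s _ hx => BB_mul hx (nrm_mem s.1)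

/-- polarisation -/
theorem polar {L : AddSubgroup (QQ (Fin m → Γ))} (hL : Iv (op Γ m) L) {x : QQ (Fin m → Γ)}
    (hx : x ∈ L) (u : Fin m → QQ Γ) (hu : ∀ l, eps (u l) = 0) : x * NN Γ m (FT m u) ∈ L := by
  classical
  let u' : Option (Fin m) → QQ Γ := fun o => o.elim 1 u
  let key : (Fin m → Option (Fin m)) → Finset (Fin m) := fun r =>
    univ.filter fun i => ∃ l, r l = some i
  let D : Finset (Fin m) → QQ (Fin m → Γ) := fun T =>
    ∑ r ∈ univ.filter (fun r => key r = T), FT m fun l => u' (r l)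
  have hk : ∀ (T : Finset (Fin m)) r, r ∈ Fintype.piFinset (fun _ : Fin m => insertNone T) ↔
      key r ⊆ T := by
    intro T r
    simp only [Fintype.mem_piFinset, mem_insertNone, key, subset_iff, mem_filter, mem_univ,
      true_and, Option.mem_def]
    exact ⟨fun h i ⟨l, hl⟩ => h l i hl, fun h l i hl => h ⟨l, hl⟩⟩
  have h1 : ∀ T, x * D T ∈ L := by
    intro T
    induction T using Finset.strongInduction with
    | H T ih =>
      have h2 : eps (∑ o ∈ insertNone T, u' o) = 1 := by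
        rw [sum_insertNone, map_add, map_sum]
        simp [u', hu, eps_one]
      have h3 := hL ⟨_, h2⟩ x hx
      rw [op_apply, nrm_eq, MultilinearMap.map_sum_finset,
        ← sum_fiberwise_of_maps_to (t := T.powerset) (g := key)
          (fun r hr => mem_powerset.2 ((hk T r).1 hr)),
        sum_congr rfl (g := D) (fun T' hT' => sum_congr (by
          ext r
          simp only [mem_filter, hk, mem_univ, true_and, and_iff_right_iff_imp]
          rintro rfl
          exact mem_powerset.1 hT') fun _ _ => rfl),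
        ← add_sum_erase _ _ (mem_powerset_self T), mul_add] at h3
      refine (AddSubgroup.add_mem_cancel_right _ ?_).1 h3
      rw [mul_sum]
      exact sum_mem fun T' hT' => ih T'
        (lt_of_le_of_ne (mem_powerset.1 (mem_erase.1 hT').2) (mem_erase.1 hT').1)
  have h2 : NN Γ m (FT m u) = D univ := by
    rw [NN_FT]
    refine sum_bij (fun σ _ l => some (σ l)) (fun σ _ => ?_) (fun σ _ τ _ h => ?_)
      (fun r hr => ?_) (fun _ _ => rfl)
    · refine mem_filter.2 ⟨mem_univ _, eq_univ_of_forall fun i => ?_⟩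
      exact mem_filter.2 ⟨mem_univ _, σ.symm i, by simp⟩
    · exact Equiv.ext fun l => Option.some_injective _ (congrFun h l)
    · have h3 : ∀ i, ∃ l, r l = some i := fun i =>
        (mem_filter.1 (((mem_filter.1 hr).2).symm ▸ mem_univ i : i ∈ key r)).2
      choose τ hτ using h3
      have h4 : Function.Injective τ := fun i j h => Option.some_injective _ (by
        rw [← hτ, ← hτ, h])
      refine ⟨(Equiv.ofBijective τ (Finite.injective_iff_bijective.1 h4)).symm, mem_univ _, ?_⟩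
      funext l
      rw [← hτ]
      exact congrArg r
        ((Equiv.ofBijective τ (Finite.injective_iff_bijective.1 h4)).apply_symm_apply l)
  rw [h2]
  exact h1 _

/-- the map that kills one slot -/
def up (k : Fin m) : (Fin m → Γ) →* (Fin m → Γ) where
  toFun g := Function.update g k 1
  map_one' := by simp
  map_mul' g h := by
    funext l
    by_cases hl : l = k
    · simp [hl]
    · simp [hl]

/-- the elements killed by the augmentation of one slot -/
noncomputable def WK (Γ : Type) [Group Γ] (k : Fin m) : AddSubgroup (QQ (Fin m → Γ)) :=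
  (mapDomainRingHom ℤ (up (Γ := Γ) k)).toAddMonoidHom.ker

theorem mem_WK {k : Fin m} {x : QQ (Fin m → Γ)} :
    x ∈ WK Γ k ↔ mapDomainRingHom ℤ (up k) x = 0 := Iff.rfl

theorem polarW {L : AddSubgroup (QQ (Fin m → Γ))} (hL : Iv (op Γ m) L) {x : QQ (Fin m → Γ)}
    (hx : x ∈ L) {w : QQ (Fin m → Γ)} (hw : ∀ k, w ∈ WK Γ k) : x * NN Γ m w ∈ L := by
  classical
  have h1 : ∀ g : Fin m → Γ, FT m (fun l => single (g l) 1 - 1) = ∑ S : Finset (Fin m),
      (∏ l, S.piecewise (fun _ => (1 : ℤ)) (fun _ => -1) l) •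
        single (S.piecewise g 1) (1 : ℤ) := by
    intro g
    have h2 : (fun l => (single (g l) 1 - 1 : QQ Γ)) =
        (fun l => single (g l) 1) + fun _ => single 1 (-1) := by
      funext l
      simp [sub_eq_add_neg, one_def]
    rw [h2, MultilinearMap.map_add_univ]
    refine sum_congr rfl fun S _ => ?_
    rw [smul_single, smul_eq_mul, mul_one, ← FT_single]
    congr 1
    funext l
    by_cases hl : l ∈ S <;> simp [hl]
  have h2 : ∀ (f : (Fin m → Γ) → Fin m → Γ) (y : QQ (Fin m → Γ)),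
      ∑ g ∈ y.coeff.support, y.coeff g • single (f g) (1 : ℤ) = mapDomain f y := by
    intro f y
    conv_rhs => rw [← sum_coeff_single y, mapDomain_sum]
    exact sum_congr rfl fun g _ => by simp
  have h3 : ∑ g ∈ w.coeff.support, w.coeff g • FT m (fun l => single (g l) 1 - 1) = w := by
    simp only [h1, smul_sum]
    rw [sum_comm, sum_eq_single univ]
    · simp only [piecewise_univ, prod_const_one, one_smul]
      rw [h2 (fun g => g)]
      exact coeff_injective Finsupp.mapDomain_id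
    · intro S _ hS
      obtain ⟨k, hk⟩ : ∃ k, k ∉ S := by
        by_contra h
        exact hS (eq_univ_of_forall fun k => by_contra fun hk => h ⟨k, hk⟩)
      simp only [smul_comm (w.coeff _)]
      rw [← smul_sum, h2 (fun g => S.piecewise g 1)]
      have h4 : (fun g : Fin m → Γ => S.piecewise g 1) =
          (fun g : Fin m → Γ => S.piecewise g 1) ∘ up k := by
        funext g l
        by_cases hl : l ∈ S
        · have : l ≠ k := fun h => hk (h ▸ hl)
          simp [hl, up, this]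
        · simp [hl]
      have h5 : mapDomain (up k) w = 0 := hw k
      have h6 : mapDomain (fun g : Fin m → Γ => S.piecewise g 1) w =
          mapDomain (fun g : Fin m → Γ => S.piecewise g 1) (mapDomain (up k) w) := by
        conv_lhs => rw [h4]
        ext g
        simp [Finsupp.mapDomain_comp]
      rw [h6, h5, mapDomain_zero, smul_zero]
    · simp
  rw [← h3, map_sum, mul_sum]
  refine sum_mem fun g _ => ?_
  rw [map_zsmul, mul_smul_comm]
  exact zsmul_mem (polar hL hx _ fun l => by rw [map_sub, eps_single, eps_one, sub_self]) _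

theorem prod_skip {M : Type} [Monoid M] : ∀ (n : ℕ) (f : Fin (n + 1) → M) (k : Fin (n + 1)),
    f k = 1 → (List.ofFn f).prod = (List.ofFn fun j => f (k.succAbove j)).prod := by
  intro n
  induction n with
  | zero =>
    intro f k hk
    obtain rfl : k = 0 := Subsingleton.elim (α := Fin 1) _ _
    simp [hk]
  | succ n ih =>
    intro f k hk
    induction k using Fin.cases with
    | zero => rw [List.ofFn_succ, List.prod_cons, hk, one_mul]; rfl
    | succ k =>
      rw [List.ofFn_succ, List.prod_cons, ih (fun i => f i.succ) k hk,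
        List.ofFn_succ (f := fun j => f (k.succ.succAbove j)), List.prod_cons]
      simp

theorem contr_nrm (k : Fin (m + 1)) {s : QQ Γ} (hs : eps s = 1) :
    mapDomainRingHom ℤ (cp k.succAbove) (nrm (m + 1) s) = nrm m s := by
  rw [nrm, map_list_prod, List.map_ofFn, prod_skip m _ k, nrm]
  · congr 2
    funext j
    rw [Function.comp_apply, ← RingHom.comp_apply, ← mapDomainRingHom_comp]
    congr 2
    ext g i
    simp [cp, Pi.mulSingle_apply]
  · rw [Function.comp_apply, ← RingHom.comp_apply, ← mapDomainRingHom_comp]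
    have h1 : (cp k.succAbove).comp (MonoidHom.mulSingle (fun _ : Fin (m + 1) => Γ) k) = 1 := by
      ext g i
      simp [cp]
    have h2 : ∀ y : QQ Γ, mapDomainRingHom ℤ (1 : Γ →* (Fin m → Γ)) y = single 1 (eps y) := by
      intro y
      induction y using MonoidAlgebra.induction_linear with
      | zero => simp
      | add a b ha hb => rw [map_add, map_add, ha, hb, single_add]
      | single g a => simp [eps_single]
    rw [h1, h2, hs]
    rfl

theorem acc_WK (ih : ∀ m' < m, Acc (op Γ m') ⊥ ⊤) (k : Fin m) : Acc (op Γ m) (WK Γ k) ⊤ := by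
  obtain ⟨m, rfl⟩ : ∃ m', m = m' + 1 := ⟨m - 1, by have := k.2; omega⟩
  refine (ih m (by omega)).pull (mapDomainRingHom ℤ (cp k.succAbove)).toAddMonoidHom
    (fun s x _ => ?_) (fun s x hx => by simp_all) bot_le (fun _ _ => trivial) (fun x _ hx => ?_)
  · rw [AddSubgroup.mem_bot, sub_eq_zero, op_apply, op_apply]
    change mapDomainRingHom ℤ (cp k.succAbove) _ = mapDomainRingHom ℤ (cp k.succAbove) x * _
    rw [map_mul, contr_nrm k s.2]
  · have h1 : mapDomain (cp k.succAbove) x = 0 := hx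
    have h2 : (up (Γ := Γ) k : _ → _) = (fun h => Fin.insertNth k 1 h) ∘ cp k.succAbove := by
      funext g
      exact (Fin.insertNth_removeNth k 1 g).symm
    have h3 : mapDomain (up k) x =
        mapDomain (fun h => Fin.insertNth k 1 h) (mapDomain (cp k.succAbove) x) := by
      rw [h2]
      ext g
      simp [Finsupp.mapDomain_comp]
    change mapDomain (up k) x = 0
    rw [h3, h1, mapDomain_zero]

section Brauer

variable {p : ℕ} [Fact p.Prime]

theorem coeff_mul_nrm [DecidableEq Γ] (b : QQ (Fin m → Γ)) (s : QQ Γ) (g : Fin m → Γ) :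
    (((b * nrm m s).coeff g : ℤ) : ZMod p) =
      ∑ r ∈ Fintype.piFinset (fun _ : Fin m => s.coeff.support),
        (b.coeff (g * r⁻¹) : ZMod p) * ∏ l, (s.coeff (r l) : ZMod p) := by
  rw [nrm_eq, FT_expand, mul_sum, coeff_sum, Finsupp.finsetSum_apply, Int.cast_sum]
  refine sum_congr rfl fun r _ => ?_
  rw [coeff_mul_single_apply]
  push_cast
  rfl

/-- the elements with coefficients divisible by `p` on a set -/
def ZZ (p : ℕ) {G : Type} [Group G] (S : Set G) : AddSubgroup (QQ G) where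
  carrier := {x | ∀ g ∈ S, (x.coeff g : ZMod p) = 0}
  zero_mem' := fun _ _ => by simp
  add_mem' := fun {a b} ha hb g hg => by simp [ha g hg, hb g hg]
  neg_mem' := fun {a} ha g hg => by simp [ha g hg]

theorem acc_fix (ih : ∀ m' < m, Acc (op Γ m') ⊥ ⊤) (σ : Equiv.Perm (Fin m)) (hσ : orderOf σ = p) :
    Iv (op Γ m) (BB Γ m ⊓ ZZ p {g | g ∘ σ = g}) ∧
      Acc (op Γ m) (BB Γ m ⊓ ZZ p {g | g ∘ σ = g}) (BB Γ m) := by
  classical
  obtain ⟨m', hm, π, hs, h1, h2, h3⟩ := exists_pi σ hσ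
  have hi : Function.Injective (cp (Γ := Γ) π) := fun a b h => hs.injective_comp_right h
  let φ : QQ (Fin m → Γ) →+ QQ (Fin m' → Γ) := comapDomainAddMonoidHom (cp π) hi
  have hφ : ∀ x h, (φ x).coeff h = x.coeff (h ∘ π) := fun _ _ => rfl
  have hfix : ∀ (h : Fin m' → Γ), (h ∘ π) ∘ σ = h ∘ π := fun h => funext fun l => congrArg h (h1 l)
  have hZ : Iv (op Γ m') (ZZ p Set.univ) := fun s x hx g _ => by
    rw [op_apply, coeff_mul_nrm]
    exact sum_eq_zero fun r _ => by rw [hx _ trivial, zero_mul]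
  have key : ∀ s, ∀ b ∈ BB Γ m, φ (op Γ m s b) - op Γ m' s (φ b) ∈ ZZ p Set.univ := by
    intro s b hb h _
    rw [coeff_sub, Finsupp.sub_apply, Int.cast_sub, sub_eq_zero, hφ, op_apply, op_apply,
      coeff_mul_nrm, coeff_mul_nrm, sum_fix _ (fun r => r ∘ σ)]
    · refine (sum_bij (fun r _ => r ∘ π) (fun r hr => ?_) (fun r _ r' _ h => hi h)
        (fun r hr => ?_) (fun r _ => ?_)).symm
      · exact mem_filter.2 ⟨Fintype.mem_piFinset.2 fun l => Fintype.mem_piFinset.1 hr _, hfix r⟩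
      · obtain ⟨y, rfl⟩ := h2 Γ r (mem_filter.1 hr).2
        refine ⟨y, Fintype.mem_piFinset.2 fun o => ?_, rfl⟩
        obtain ⟨l, rfl⟩ := hs o
        exact Fintype.mem_piFinset.1 (mem_filter.1 hr).1 l
      · rw [hφ, ← h3]
        rfl
    · intro r
      have h4 : ∀ n (r : Fin m → Γ), (fun r : Fin m → Γ => r ∘ σ)^[n] r = r ∘ ⇑(σ ^ n) := by
        intro n
        induction n with
        | zero => intro r; rfl
        | succ n ih => intro r; rw [Function.iterate_succ_apply, ih, pow_succ']; rfl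
      rw [h4, ← hσ, pow_orderOf_eq_one]
      rfl
    · exact fun r hr => Fintype.mem_piFinset.2 fun l => Fintype.mem_piFinset.1 hr _
    · intro r
      have h4 : h ∘ π * (r ∘ σ)⁻¹ = (h ∘ π * r⁻¹) ∘ σ := by
        conv_lhs => rw [← hfix h]
        rfl
      rw [h4, hb σ]
      congr 1
      exact Equiv.prod_comp σ fun l => (s.1.coeff (r l) : ZMod p)
  have hk : ∀ x, φ x ∈ ZZ p Set.univ ↔ x ∈ ZZ p {g : Fin m → Γ | g ∘ σ = g} := fun x =>
    ⟨fun hx g hg => by
      obtain ⟨y, rfl⟩ := h2 Γ g hg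
      exact hx y trivial, fun hx h _ => hx _ (hfix h)⟩
  refine ⟨fun s x hx => ⟨iv_BB s x hx.1, (hk _).1 ?_⟩, ((ih m' hm).mono bot_le le_rfl).pull φ key
    hZ le_top (fun _ _ => trivial) fun x hx hx' => ⟨hx, (hk x).1 hx'⟩⟩
  simpa using add_mem (key s x hx.1) (hZ s _ ((hk x).2 hx.2))

theorem decomp : ∀ (n : ℕ) (b : QQ (Fin m → Γ)), b ∈ BB Γ m →
    (∀ σ : Equiv.Perm (Fin m), orderOf σ = p → b ∈ ZZ p {g | g ∘ σ = g}) →
    #(b.coeff.support.filter fun g => (b.coeff g : ZMod p) ≠ 0) ≤ n →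
    ∃ b' ∈ BB Γ m, ∃ r, b = p • b' + NN Γ m r := by
  classical
  have base : ∀ b ∈ BB Γ m, (∀ g, (b.coeff g : ZMod p) = 0) →
      ∃ b' ∈ BB Γ m, ∃ r, b = p • b' + NN Γ m r := by
    intro b hb h
    refine ⟨.ofCoeff (b.coeff.mapRange (fun a => a / p) (by simp)), fun σ g => by
      simp [hb σ g], 0, ?_⟩
    ext g
    have := Int.mul_ediv_cancel' ((ZMod.intCast_zmod_eq_zero_iff_dvd _ _).1 (h g))
    rw [map_zero, add_zero, coeff_smul_apply, nsmul_eq_mul]
    exact this.symm
  intro n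
  induction n with
  | zero =>
    intro b hb _ h
    refine base b hb fun g => by_contra fun hg => ?_
    have : g ∈ b.coeff.support.filter fun g => (b.coeff g : ZMod p) ≠ 0 :=
      mem_filter.2 ⟨Finsupp.mem_support_iff.2 fun h0 => hg (by simp [h0]), hg⟩
    rw [card_eq_zero.1 (Nat.le_zero.1 h)] at this
    simp at this
  | succ n ih =>
    intro b hb h1 h2
    by_cases h0 : ∀ g, (b.coeff g : ZMod p) = 0
    · exact base b hb h0
    obtain ⟨g0, hg0⟩ := not_forall.1 h0
    let St : Subgroup (Equiv.Perm (Fin m)) :=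
      { carrier := {σ | g0 ∘ σ = g0}
        one_mem' := rfl
        mul_mem' := fun {a c} ha hc => by
          change (g0 ∘ a) ∘ c = g0
          rw [ha, hc]
        inv_mem' := fun {a} ha => by
          change g0 ∘ ⇑a⁻¹ = g0
          conv_lhs => rw [← ha]
          funext l
          simp }
    have h3 : ((Fintype.card St : ℕ) : ZMod p) ≠ 0 := by
      rw [Ne, ZMod.natCast_eq_zero_iff]
      intro hd
      obtain ⟨τ, hτ⟩ := exists_prime_orderOf_dvd_card p hd
      exact hg0 (h1 τ.1 (by rw [Subgroup.orderOf_coe, hτ]) g0 τ.2)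
    obtain ⟨v, hv⟩ := ZMod.intCast_surjective 
      ((b.coeff g0 : ZMod p) / ((Fintype.card St : ℕ) : ZMod p))
    have h4 : b - NN Γ m (single g0 v) ∈ BB Γ m := sub_mem hb (NN_mem _)
    have h5 : ((b - NN Γ m (single g0 v)).coeff g0 : ZMod p) = 0 := by
      rw [coeff_sub, Finsupp.sub_apply, NN_coeff]
      simp only [coeff_single, Finsupp.single_apply]
      rw [← sum_filter, sum_const, Int.cast_sub, nsmul_eq_mul, Int.cast_mul, hv, Int.cast_natCast]
      have : #(univ.filter fun σ : Equiv.Perm (Fin m) => g0 = g0 ∘ σ) = Fintype.card St := by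
        rw [Fintype.card_subtype]
        congr 1
        ext σ
        simp only [mem_filter, mem_univ, true_and]
        exact eq_comm
      rw [this, mul_div_cancel₀ _ h3, sub_self]
    have h6 : ∀ g, ((b - NN Γ m (single g0 v)).coeff g : ZMod p) ≠ 0 →
        g ≠ g0 ∧ (b.coeff g : ZMod p) ≠ 0 := by
      intro g hg
      by_cases h7 : ∃ τ : Equiv.Perm (Fin m), g = g0 ∘ τ
      · obtain ⟨τ, rfl⟩ := h7
        rw [h4 τ] at hg
        exact absurd h5 hg
      · refine ⟨fun h => h7 ⟨1, h⟩, ?_⟩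
        rwa [coeff_sub, Finsupp.sub_apply, NN_coeff, sum_eq_zero, sub_zero] at hg
        intro σ _
        rw [coeff_single, Finsupp.single_eq_of_ne]
        intro h
        exact h7 ⟨σ⁻¹, by rw [← h]; funext l; simp⟩
    obtain ⟨b', hb', r, hr⟩ := ih _ h4
      (fun σ hσ g hg => by_contra fun h => (h6 g h).2 (h1 σ hσ g hg)) (by
        have h7 : g0 ∈ b.coeff.support.filter fun g => (b.coeff g : ZMod p) ≠ 0 :=
          mem_filter.2 ⟨Finsupp.mem_support_iff.2 fun h => hg0 (by simp [h]), hg0⟩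
        have h8 := card_erase_of_mem h7
        refine (card_le_card (t := (b.coeff.support.filter
          fun g => (b.coeff g : ZMod p) ≠ 0).erase g0) fun g hg => ?_).trans (by omega)
        have h9 := h6 g (mem_filter.1 hg).2
        exact mem_erase.2 ⟨h9.1, mem_filter.2
          ⟨Finsupp.mem_support_iff.2 fun h => h9.2 (by simp [h]), h9.2⟩⟩)
    exact ⟨b', hb', r + single g0 v, by rw [map_add, ← add_assoc, ← hr, sub_add_cancel]⟩

end Brauer

theorem iv_range : Iv (op Γ m) (NN Γ m).range := by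
  rintro s _ ⟨x, rfl⟩
  exact ⟨x * nrm m s.1, NN_mul x (nrm_mem _)⟩

theorem range_le : (NN Γ m).range ≤ BB Γ m := by
  rintro _ ⟨x, rfl⟩
  exact NN_mem x

theorem acc_mul (ih : ∀ m' < m, Acc (op Γ m') ⊥ ⊤) (d : ℕ) (hd : d ≠ 0) :
    Acc (op Γ m) ((NN Γ m).range ⊔ (BB Γ m).map (nsmulAddMonoidHom d)) (BB Γ m) := by
  classical
  induction d using induction_on_primes with
  | zero => exact absurd rfl hd
  | one => exact Acc.of_le fun x hx => AddSubgroup.mem_sup_right ⟨x, hx, by simp⟩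
  | prime_mul p d hp ihd =>
    have : Fact p.Prime := ⟨hp⟩
    have h1 : ∀ s, ∀ x ∈ BB Γ m, nsmulAddMonoidHom d (op Γ m s x) =
        op Γ m s (nsmulAddMonoidHom d x) := fun s x _ => (map_nsmul (op Γ m s) d x).symm
    have h2 := Acc.fin (univ.filter fun σ : Equiv.Perm (Fin m) => orderOf σ = p)
      (fun σ => BB Γ m ⊓ ZZ p {g | g ∘ σ = g}) iv_BB
      (fun σ hσ => (acc_fix ih σ (mem_filter.1 hσ).2).1) (fun _ _ => inf_le_left)
      (fun σ hσ => (acc_fix ih σ (mem_filter.1 hσ).2).2)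
    refine Acc.trans (h2.2.push (nsmulAddMonoidHom d) h1 iv_BB inf_le_left (fun x hx => ?_)
      (sup_le_sup_right le_sup_left _)) (ihd (right_ne_zero_of_mul hd))
      (iv_range.sup (iv_BB.map _ h1)) (sup_le_sup_left ?_ _) (sup_le range_le ?_)
    · obtain ⟨b', hb', r, rfl⟩ := decomp (p := p) _ x hx.1 (fun σ hσ =>
        (Finset.inf_le (f := fun σ : Equiv.Perm (Fin m) => BB Γ m ⊓ ZZ p {g | g ∘ σ = g})
          (mem_filter.2 ⟨mem_univ σ, hσ⟩) hx.2).2) le_rfl
      rw [map_add, add_comm]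
      refine AddSubgroup.add_mem_sup ⟨d • r, map_nsmul _ _ _⟩ ⟨b', hb', ?_⟩
      simp only [nsmulAddMonoidHom_apply, smul_smul, mul_comm]
    · rintro _ ⟨x, hx, rfl⟩
      exact ⟨p • x, nsmul_mem hx p, by simp only [nsmulAddMonoidHom_apply, smul_smul, mul_comm]⟩
    · rintro _ ⟨x, hx, rfl⟩
      exact nsmul_mem hx d

theorem acc_J (ih : ∀ m' < m, Acc (op Γ m') ⊥ ⊤) :
    Acc (op Γ m) ((⊤ ⊓ univ.inf (WK Γ)).map (NN Γ m)) (BB Γ m) := by
  have h1 := Acc.fin (a := op Γ m) univ (WK Γ) Iv.top (fun k _ s x hx => by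
    rw [mem_WK] at hx ⊢
    rw [op_apply, map_mul, hx, zero_mul]) (fun _ _ => le_top) (fun k _ => acc_WK ih k)
  refine Acc.trans (V := (NN Γ m).range) (h1.2.push (NN Γ m) (fun s x _ => NN_mul x (nrm_mem _))
    Iv.top le_top (fun x hx => ⟨x, hx, rfl⟩) ?_)
    ((acc_mul ih _ m.factorial_ne_zero).mono (sup_le le_rfl ?_) le_rfl) iv_range
    (AddSubgroup.map_le_range _ _) range_le
  · rw [AddMonoidHom.range_eq_map]
    exact le_sup_right
  · rintro _ ⟨x, hx, rfl⟩
    exact ⟨x, NN_BB hx⟩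

theorem step (hS : ∀ c : ℕ → AddSubgroup (QQ (Fin m → Γ)), Monotone c →
    (∀ n, ∀ x ∈ c n, ∀ b ∈ BB Γ m, x * b ∈ c n) → ∃ n, ∀ k, n ≤ k → c k = c n)
    (ih : ∀ m' < m, Acc (op Γ m') ⊥ ⊤) : Acc (op Γ m) ⊥ ⊤ := by
  intro c hc hi _ _
  let M : ℕ → AddSubgroup (QQ (Fin m → Γ)) := fun n =>
    AddSubgroup.closure {z | ∃ x ∈ c n, ∃ b ∈ BB Γ m, z = x * b}
  have hM : ∀ n, ∀ x ∈ M n, ∀ b ∈ BB Γ m, x * b ∈ M n := by
    intro n x hx b hb
    refine (AddSubgroup.closure_le ((M n).comap (AddMonoidHom.mulRight b))).2 ?_ hx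
    rintro _ ⟨y, hy, b', hb', rfl⟩
    exact AddSubgroup.subset_closure ⟨y, hy, b' * b, BB_mul hb' hb, mul_assoc _ _ _⟩
  have hcM : ∀ n, c n ≤ M n := fun n x hx =>
    AddSubgroup.subset_closure ⟨x, hx, 1, BB_one, (mul_one x).symm⟩
  obtain ⟨n0, hn0⟩ := hS M (fun _ _ h => AddSubgroup.closure_mono fun _ ⟨x, hx, hz⟩ =>
    ⟨x, hc h hx, hz⟩) hM
  have hU : ∀ x ∈ M n0, ∀ j ∈ (⊤ ⊓ univ.inf (WK Γ)).map (NN Γ m), x * j ∈ c n0 := by
    rintro x hx _ ⟨w, hw, rfl⟩
    refine (AddSubgroup.closure_le ((c n0).comap (AddMonoidHom.mulRight (NN Γ m w)))).2 ?_ hx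
    rintro _ ⟨y, hy, b, hb, rfl⟩
    change y * b * NN Γ m w ∈ c n0
    rw [mul_assoc, ← mul_NN w hb]
    refine polarW (hi n0) hy fun k => ?_
    have h1 : w ∈ WK Γ k := Finset.inf_le (f := WK Γ) (mem_univ k) hw.2
    rw [mem_WK] at h1 ⊢
    rw [map_mul, h1, mul_zero]
  have hA : Acc (op Γ m) (c n0) (c n0 ⊔ M n0) := by
    by_contra hA
    let S := {X : AddSubgroup (QQ (Fin m → Γ)) // (∀ x ∈ X, ∀ b ∈ BB Γ m, x * b ∈ X) ∧
      X ≤ M n0 ∧ Acc (op Γ m) (c n0) (c n0 ⊔ X)}
    have : NoMaxOrder S := ⟨fun ⟨X, h1, h2, h3⟩ => by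
      obtain ⟨x, hx, hx'⟩ : ∃ x ∈ M n0, x ∉ X :=
        SetLike.exists_of_lt (lt_of_le_of_ne h2 (by rintro rfl; exact hA h3))
      refine ⟨⟨X ⊔ (BB Γ m).map (AddMonoidHom.mulLeft x), fun y hy b hb => ?_, sup_le h2 ?_,
        h3.trans ?_ ((hi n0).sup fun s y hy => h1 y hy _ (nrm_mem _)) le_sup_left
          (sup_le_sup_left le_sup_left _)⟩, 
        lt_of_le_of_ne (Subtype.mk_le_mk.2 le_sup_left) fun h => hx' ?_⟩
      · obtain ⟨y1, hy1, _, ⟨b', hb', rfl⟩, rfl⟩ := AddSubgroup.mem_sup.1 hy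
        rw [add_mul]
        exact AddSubgroup.add_mem_sup (h1 y1 hy1 b hb)
          ⟨b' * b, BB_mul hb' hb, (mul_assoc _ _ _).symm⟩
      · rintro _ ⟨b, hb, rfl⟩
        exact hM n0 x hx b hb
      · exact (acc_J ih).push (AddMonoidHom.mulLeft x) (fun s y _ => (mul_assoc _ _ _).symm)
          iv_BB ((AddSubgroup.map_le_range _ _).trans range_le)
          (fun j hj => AddSubgroup.mem_sup_left (hU x hx j hj)) (sup_assoc _ _ _).ge
      · have h4 : X = X ⊔ (BB Γ m).map (AddMonoidHom.mulLeft x) := congrArg Subtype.val h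
        rw [h4]
        exact AddSubgroup.mem_sup_right ⟨1, BB_one, mul_one x⟩⟩
    obtain ⟨f, hf, -⟩ := Nat.exists_strictMono' (α := S)
      ⟨⊥, fun x hx b _ => by simp_all, bot_le, Acc.of_le (by simp)⟩
    obtain ⟨n, hn⟩ := hS (fun n => (f n).1) (fun _ _ h => hf.monotone h) (fun n => (f n).2.1)
    exact (hf (Nat.lt_succ_self n)).ne' (Subtype.ext (hn (n + 1) (Nat.le_succ n)))
  obtain ⟨n, hn⟩ := hA (fun k => c (n0 + k)) (fun _ _ h => hc (Nat.add_le_add_left h _))
    (fun k => hi _) (fun k => hc (Nat.le_add_right _ _))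
    (fun k => (hcM _).trans ((hn0 _ (Nat.le_add_right _ _)).le.trans le_sup_right))
  refine ⟨n0 + n, fun k hk => ?_⟩
  have := hn (k - n0) (by omega)
  rwa [show n0 + (k - n0) = k by omega] at this

end N0A

open Pool.Agent.MP_5c28a4_al.H89S.N0A in
theorem n0 (h : SNI) : SN0 := by
  intro Γ _ hfg hvn m c hc hi
  have key : ∀ m, Acc (op Γ m) ⊥ ⊤ := by
    intro m
    induction m using Nat.strong_induction_on with
    | h m ih =>
      refine step (fun c hc hi => ?_) ih
      obtain ⟨n, hn⟩ := h Γ hfg hvn m (fun n => (c n).toIntSubmodule)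
        (fun _ _ h => AddSubgroup.toIntSubmodule.monotone (hc h)) hi
      exact ⟨n, fun k hk => AddSubgroup.toIntSubmodule.injective (hn k hk)⟩
  obtain ⟨n, hn⟩ := key m (fun n => (c n).toAddSubgroup) (fun _ _ h => hc h)
    (fun n s x hx => hi n x hx s.1 s.2) (fun _ => bot_le) (fun _ => le_top)
  exact ⟨n, fun k hk => Submodule.toAddSubgroup_injective (hn k hk)⟩

end Pool.Agent.MP_5c28a4_al.H89S
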