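import Pool.Agent.MP_5c28a4_al.H89S.Spec

/-!
Chain conditions for groups with operators, and the tensor map into the group ring of a power.
-/

set_option autoImplicit false

namespace Pool.Agent.MP_5c28a4_al.H89S

namespace N0A

open Finset

section Acc

variable {ι M M' : Type} [AddCommGroup M] [AddCommGroup M']

/-- invariant subgroup -/
def Iv (a : ι → M →+ M) (U : AddSubgroup M) : Prop := ∀ i, ∀ x ∈ U, a i x ∈ U

/-- ascending chains of invariant subgroups between `U` and `V` become constant -/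
def Acc (a : ι → M →+ M) (U V : AddSubgroup M) : Prop :=
  ∀ c : ℕ → AddSubgroup M, Monotone c → (∀ n, Iv a (c n)) → (∀ n, U ≤ c n) → (∀ n, c n ≤ V) →
    ∃ n, ∀ k, n ≤ k → c k = c n

variable {a : ι → M →+ M} {a' : ι → M' →+ M'} {U V W : AddSubgroup M} {U' V' : AddSubgroup M'}

theorem Iv.inf (h : Iv a U) (h' : Iv a V) : Iv a (U ⊓ V) :=
  fun i x hx => ⟨h i x hx.1, h' i x hx.2⟩

theorem Iv.sup (h : Iv a U) (h' : Iv a V) : Iv a (U ⊔ V) := fun i x hx => by
  obtain ⟨y, hy, z, hz, rfl⟩ := AddSubgroup.mem_sup.1 hx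
  rw [map_add]
  exact AddSubgroup.add_mem_sup (h i y hy) (h' i z hz)

theorem Iv.top : Iv a ⊤ := fun _ _ _ => trivial

theorem Iv.map (h : Iv a' V') (φ : M' →+ M) (hφ : ∀ i, ∀ x ∈ V', φ (a' i x) = a i (φ x)) :
    Iv a (V'.map φ) := by
  rintro i _ ⟨x, hx, rfl⟩
  exact ⟨_, h i x hx, hφ i x hx⟩

theorem Acc.of_le (h : V ≤ U) : Acc a U V := fun c _ _ h1 h2 =>
  ⟨0, fun k _ => le_antisymm ((h2 k).trans (h.trans (h1 0))) ((h2 0).trans (h.trans (h1 k)))⟩

theorem Acc.mono {U₂ V₂ : AddSubgroup M} (h : Acc a U V) (h1 : U ≤ U₂) (h2 : V₂ ≤ V) :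
    Acc a U₂ V₂ := fun c hc hi h3 h4 => h c hc hi (fun n => h1.trans (h3 n))
      (fun n => (h4 n).trans h2)

theorem Acc.trans (h1 : Acc a U V) (h2 : Acc a V W) (hV : Iv a V) (hUV : U ≤ V) (hVW : V ≤ W) :
    Acc a U W := by
  intro c hc hi h3 h4
  obtain ⟨n1, hn1⟩ := h1 (fun n => c n ⊓ V) (fun _ _ h => inf_le_inf_right _ (hc h))
    (fun n => (hi n).inf hV) (fun n => le_inf (h3 n) hUV) (fun n => inf_le_right)
  obtain ⟨n2, hn2⟩ := h2 (fun n => c n ⊔ V) (fun _ _ h => sup_le_sup_right (hc h) _)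
    (fun n => (hi n).sup hV) (fun n => le_sup_right) (fun n => sup_le (h4 n) hVW)
  refine ⟨max n1 n2, fun k hk => (eq_of_le_of_inf_le_of_le_sup (z := V) (hc hk) ?_ ?_).symm⟩
  · have e1 := hn1 k (le_trans (le_max_left _ _) hk)
    have e2 := hn1 _ (le_max_left n1 n2)
    rw [e1, ← e2]
    exact inf_le_left
  · have e1 := hn2 k (le_trans (le_max_right _ _) hk)
    have e2 := hn2 _ (le_max_right n1 n2)
    rw [e2, ← e1]
    exact le_sup_left

theorem Acc.push (h : Acc a' U' V') (φ : M' →+ M) (hφ : ∀ i, ∀ x ∈ V', φ (a' i x) = a i (φ x))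
    (hV : Iv a' V') (h1 : U' ≤ V') (h2 : ∀ x ∈ U', φ x ∈ U) (h3 : V ≤ U ⊔ V'.map φ) :
    Acc a U V := by
  intro c hc hi h4 h5
  obtain ⟨n, hn⟩ := h (fun n => (c n).comap φ ⊓ V')
    (fun _ _ h => inf_le_inf_right _ (AddSubgroup.comap_mono (hc h)))
    (fun n i x hx => ⟨by
      change φ (a' i x) ∈ c n
      rw [hφ i x hx.2]
      exact hi n i _ hx.1, hV i x hx.2⟩)
    (fun n => le_inf (fun x hx => h4 n (h2 x hx)) h1) (fun n => inf_le_right)
  refine ⟨n, fun k hk => le_antisymm (fun x hx => ?_) (hc hk)⟩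
  obtain ⟨u, hu, _, ⟨v, hv, rfl⟩, rfl⟩ := AddSubgroup.mem_sup.1 (h3 (h5 k hx))
  have h6 : v ∈ (c k).comap φ ⊓ V' := ⟨by
    change φ v ∈ c k
    simpa using sub_mem hx (h4 k hu), hv⟩
  have e1 := hn k hk
  rw [e1] at h6
  exact add_mem (h4 n hu) h6.1

theorem Acc.pull (h : Acc a' U' V') (φ : M →+ M')
    (hφ : ∀ i, ∀ x ∈ V, φ (a i x) - a' i (φ x) ∈ U') (hU : Iv a' U') (h1 : U' ≤ V')
    (h2 : ∀ x ∈ V, φ x ∈ V') (h3 : ∀ x ∈ V, φ x ∈ U' → x ∈ U) : Acc a U V := by
  intro c hc hi h4 h5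
  obtain ⟨n, hn⟩ := h (fun n => (c n).map φ ⊔ U')
    (fun _ _ h => sup_le_sup_right (AddSubgroup.map_mono (hc h)) _)
    (fun n i x hx => by
      obtain ⟨_, ⟨y, hy, rfl⟩, u, hu, rfl⟩ := AddSubgroup.mem_sup.1 hx
      have : a' i (φ y + u) = φ (a i y) + (a' i u - (φ (a i y) - a' i (φ y))) := by
        rw [map_add]; abel
      rw [this]
      exact AddSubgroup.add_mem_sup ⟨_, hi n i y hy, rfl⟩
        (sub_mem (hU i u hu) (hφ i y (h5 n hy))))
    (fun n => le_sup_right) (fun n => sup_le (by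
      rintro _ ⟨y, hy, rfl⟩
      exact h2 y (h5 n hy)) h1)
  refine ⟨n, fun k hk => le_antisymm (fun x hx => ?_) (hc hk)⟩
  have h6 : φ x ∈ (c k).map φ ⊔ U' := AddSubgroup.mem_sup_left ⟨x, hx, rfl⟩
  have e1 := hn k hk
  rw [e1] at h6
  obtain ⟨_, ⟨y, hy, rfl⟩, u, hu, h7⟩ := AddSubgroup.mem_sup.1 h6
  have h8 : x - y ∈ U := h3 _ (sub_mem (h5 k hx) (h5 n hy)) (by
    rw [map_sub, ← h7]
    simpa using hu)
  simpa using add_mem (h4 n h8) hy

theorem Acc.fin {J : Type} (s : Finset J) (U : J → AddSubgroup M) (hV : Iv a V)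
    (hU : ∀ j ∈ s, Iv a (U j)) (hle : ∀ j ∈ s, U j ≤ V) (h : ∀ j ∈ s, Acc a (U j) V) :
    Iv a (V ⊓ s.inf U) ∧ Acc a (V ⊓ s.inf U) V := by
  classical
  induction s using Finset.induction_on with
  | empty => simpa using ⟨hV, Acc.of_le le_rfl⟩
  | insert j s hj ih =>
    obtain ⟨h1, h2⟩ := ih (fun i hi => hU i (mem_insert_of_mem hi))
      (fun i hi => hle i (mem_insert_of_mem hi)) (fun i hi => h i (mem_insert_of_mem hi))
    have hj' := mem_insert_self j s
    rw [inf_insert, inf_left_comm]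
    refine ⟨(hU j hj').inf h1, Acc.trans (V := V ⊓ s.inf U) ?_ h2 h1 inf_le_right inf_le_left⟩
    exact (h j hj').pull (AddMonoidHom.id M) (fun i x _ => by simp) (hU j hj') (hle j hj')
      (fun x hx => hx.1) (fun x hx hx' => ⟨hx', hx⟩)

end Acc

section Count

variable {α : Type} [DecidableEq α] {p : ℕ} [Fact p.Prime]

theorem card_fix (Y : Finset α) (f : α → α) (hf : ∀ a, f^[p] a = a) (hY : ∀ a ∈ Y, f a ∈ Y) :
    ((#Y : ℕ) : ZMod p) = (#(Y.filter fun a => f a = a) : ℕ) := by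
  let g : Function.End Y := fun a => ⟨f a, hY a a.2⟩
  have h1 : ∀ n (a : Y), ((g ^ n) a : α) = f^[n] a := by
    intro n
    induction n with
    | zero => intro a; rfl
    | succ n ih =>
      intro a
      rw [pow_succ, Function.iterate_succ_apply]
      exact ih (g a)
  have h2 : g ^ p ^ 1 = 1 := by
    funext a
    rw [pow_one]
    exact Subtype.ext ((h1 p a).trans (hf a))
  have h3 := Equiv.Perm.card_fixedPoints_modEq h2
  rw [Fintype.card_coe] at h3
  rw [(ZMod.natCast_eq_natCast_iff _ _ _).2 h3]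
  congr 1
  rw [← Fintype.card_coe]
  refine Fintype.card_congr ⟨fun a => ⟨a.1.1, mem_filter.2 ⟨a.1.2, congrArg Subtype.val a.2⟩⟩,
    fun a => ⟨⟨a.1, (mem_filter.1 a.2).1⟩, Subtype.ext (mem_filter.1 a.2).2⟩,
    fun _ => rfl, fun _ => rfl⟩

theorem sum_fix (Y : Finset α) (f : α → α) (hf : ∀ a, f^[p] a = a) (hY : ∀ a ∈ Y, f a ∈ Y)
    (G : α → ZMod p) (hG : ∀ a, G (f a) = G a) :
    ∑ a ∈ Y, G a = ∑ a ∈ Y.filter (fun a => f a = a), G a := by
  rw [← sum_fiberwise Y G G, ← sum_fiberwise (Y.filter _) G G]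
  refine sum_congr rfl fun v _ => ?_
  rw [sum_congr rfl (fun a ha => (mem_filter.1 ha).2),
    sum_congr rfl (fun a ha => (mem_filter.1 ha).2), sum_const, sum_const, nsmul_eq_mul,
    nsmul_eq_mul, card_fix (Y.filter fun a => G a = v) f hf (fun a ha =>
      mem_filter.2 ⟨hY a (mem_filter.1 ha).1, (hG a).trans (mem_filter.1 ha).2⟩), filter_comm]

/-- the orbits of a permutation of prime order -/
theorem exists_pi {m : ℕ} (σ : Equiv.Perm (Fin m)) (hσ : orderOf σ = p) :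
    ∃ m' < m, ∃ π : Fin m → Fin m', Function.Surjective π ∧ (∀ l, π (σ l) = π l) ∧
      (∀ (β : Type) (y : Fin m → β), y ∘ σ = y → ∃ y', y = y' ∘ π) ∧
      ∀ a : Fin m' → ZMod p, ∏ l, a (π l) = ∏ o, a o := by
  classical
  let G := Subgroup.zpowers σ
  let Q := MulAction.orbitRel.Quotient G (Fin m)
  let e : Q ≃ Fin (Fintype.card Q) := Fintype.equivFin Q
  let π : Fin m → Fin (Fintype.card Q) := fun l => e (Quotient.mk'' l)
  have hs : Function.Surjective π := e.surjective.comp Quotient.mk''_surjective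
  have hπ : ∀ l l', π l = π l' ↔ l ∈ MulAction.orbit G l' := fun l l' =>
    e.injective.eq_iff.trans (Quotient.eq''.trans MulAction.orbitRel_apply)
  have h1 : ∀ l, π (σ l) = π l := fun l => (hπ _ _).2 ⟨⟨σ, Subgroup.mem_zpowers σ⟩, rfl⟩
  have hG : IsPGroup p G := IsPGroup.of_card (n := 1) (by
    rw [Nat.card_zpowers, hσ, pow_one])
  refine ⟨Fintype.card Q, ?_, π, hs, h1, fun β y hy => ⟨y ∘ Function.surjInv hs, ?_⟩, fun a => ?_⟩
  · have := Fintype.card_lt_of_surjective_not_injective π hs (fun hi => by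
      have h2 : σ = 1 := Equiv.ext fun l => hi (h1 l)
      rw [h2, orderOf_one] at hσ
      exact (Fact.out : p.Prime).one_lt.ne hσ)
    simpa using this
  · funext l
    have h2 : ∀ τ ∈ G, ∀ l, y (τ l) = y l := by
      intro τ hτ
      obtain ⟨n, rfl⟩ := (mem_zpowers_iff_mem_range_orderOf (x := σ) (y := τ)).1 hτ |>
        mem_image.1 |>.imp fun _ h => h.2
      induction n with
      | zero => intro l; rfl
      | succ n ih =>
        intro l
        rw [pow_succ', Equiv.Perm.mul_apply]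
        exact (congrFun hy _).trans (ih (Subgroup.npow_mem_zpowers σ n) l)
    obtain ⟨τ, hτ⟩ := (hπ l (Function.surjInv hs (π l))).1 (Function.surjInv_eq hs _).symm
    exact (congrArg y hτ).symm.trans (h2 τ.1 τ.2 _)
  · rw [← prod_fiberwise univ π (fun l => a (π l))]
    refine prod_congr rfl fun o _ => ?_
    obtain ⟨l, rfl⟩ := hs o
    rw [prod_congr rfl (fun l' hl' => congrArg a (mem_filter.1 hl').2), prod_const]
    obtain ⟨n, hn⟩ := hG.card_orbit l
    have h2 : #(univ.filter fun l' => π l' = π l) = p ^ n := by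
      rw [← hn, Nat.card_eq_fintype_card, Fintype.card_subtype]
      congr 1
      ext l'
      simp [hπ]
    rw [h2, ZMod.pow_card_pow]

end Count

end N0A

end Pool.Agent.MP_5c28a4_al.H89S
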